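import Pool.Agent.P.MP_1206ce_ag.Top.Main

/-! The Hikita-Nakajima conjecture for Nakajima quiver varieties. -/

theorem Pool.Agent.Results.MP_1206ce_ag.HikitaNakajima.result (Q : Pool.Agent.HK.Qv)
    (θ ν : Fin Q.nI → ℤ) (hθ : Q.Stable θ) (hν : Q.Generic ν) :
    (∃ τ, Q.IsThom τ) ∧ ∀ τ, Q.IsThom τ → Q.Hikita θ ν τ :=
  Pool.Agent.HK.Qv.hikita Q θ ν hθ hν
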